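import Pool.Agent.U834.GSP.Fin
import Pool.Agent.U901.GSP.SM
import Pool.Agent.U606.GSP.WORD
import Pool.Agent.U460.GSP.TKN
import Pool.Agent.U399.GSP.GOOD
import Pool.Agent.U460.GSP.SPEC
import Pool.Agent.U460.GSP.COLS
import Pool.Agent.U60.GSP.DEC
import Pool.Agent.U129.GSP.NET
import Pool.Agent.U310.GSP.LR
import Pool.Agent.U894.GSP.CNT
import Pool.Agent.U454.GSP.LEV
import Pool.Agent.U933.GSP.LOGC
import Pool.Agent.U898.GSP.NUM
import Pool.Agent.U261.GSP.COVL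
import Pool.Agent.U750.GSP.COV
import Pool.Agent.U324.GSP.PC
import Pool.Agent.U473.GSP.GF
import Pool.Agent.U933.GSP.MAINP
import Pool.Agent.U429.GSP.MAIN
import Pool.Agent.U165.GSP.SSR
import Pool.Agent.U460.GSP.WEA
import Pool.Agent.U890.GSP.INT
import Pool.Agent.U928.GSP.UNT
import Pool.Agent.U750.GSP.ISO
import Pool.Agent.U2.GSP.CPX
import Pool.Agent.U437.SPN.RealNorm

/-!
# Project GSP: all packages
-/

set_option autoImplicit false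

open scoped Matrix.Norms.L2Operator Matrix
open Finset

namespace Pool.Agent.U834.GSP

open Pool.Agent.Q98.SPN

theorem GOOD_ok : S_GOOD := U399.GSP.GOOD.t_GOOD U901.GSP.SM.t_SM U606.GSP.WORD.t_WORD U460.GSP.TKN.t_TKN

theorem DEC_ok : S_DEC := U60.GSP.DEC.t_DEC U460.GSP.SPEC.t_SPEC U460.GSP.COLS.t_COLS

theorem LEV_ok : S_LEV := U454.GSP.LEV.t_LEV (U310.GSP.LR.t_LR U129.GSP.NET.t_NET) U894.GSP.CNT.t_CNT

theorem COV_ok : S_COV := U750.GSP.COV.t_COV (U261.GSP.COVL.t_COVL DEC_ok U460.GSP.TKN.t_TKN) LEV_ok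
  U933.GSP.LOGC.t_LOGC U898.GSP.NUM.t_NUM

theorem MAIN_ok : S_MAIN :=
  U429.GSP.MAIN.t_MAIN (U933.GSP.MAINP.t_MAINP (U324.GSP.PC.t_PC GOOD_ok COV_ok) U473.GSP.GF.t_GF)

theorem ISO_ok : S_ISO :=
  U750.GSP.ISO.t_ISO (U460.GSP.WEA.t_WEA U165.GSP.SSR.t_SSR) U890.GSP.INT.t_INT U928.GSP.UNT.t_UNT

theorem RCN_ok : S_RCN := fun ι _ _ A => by
  have h := U437.SPN.norm_map_ofReal A
  exact h

theorem CPX_ok : S_CPX := U2.GSP.CPX.t_CPX

end Pool.Agent.U834.GSP
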