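import Pool.Agent.U834.GSP.StmA
import Pool.Agent.Q98.SPN.Lind

/-!
# Project GSP: assembly
-/

set_option autoImplicit false

open scoped Matrix.Norms.L2Operator Matrix
open Finset

namespace Pool.Agent.U834.GSP

open Pool.Agent.Q98.SPN

lemma gf_mono_N {N N' x : ℝ} (hN : 0 < N) (h : N ≤ N') (hx : 0 ≤ x) : gf N x ≤ gf N' x := by
  unfold gf
  refine mul_le_mul_of_nonneg_left ?_ hx
  refine max_le_max le_rfl ?_
  rcases hx.eq_or_lt with rfl | hx0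
  · simp
  · exact Real.log_le_log (by positivity) (by gcongr)

/-- signs for contractions in a complex matrix algebra closed under the adjoint -/
theorem cpx_signs (hM : S_MAIN) (hI : S_ISO) (m : ℕ) (𝒜 : StarSubalgebra ℂ (Matrix (Fin m) (Fin m) ℂ))
    (J : Type) [Fintype J] [DecidableEq J] (A : J → Matrix (Fin m) (Fin m) ℂ) (hA : ∀ j, A j ∈ 𝒜)
    (h1 : ∀ j, ‖A j‖ ≤ 1) (N : ℝ) (hN0 : 0 < N) (hN : (Module.finrank ℂ 𝒜 : ℝ) ≤ N) :
    ∃ ε : J → ℝ, (∀ j, ε j = 1 ∨ ε j = -1) ∧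
      ‖∑ j, ((ε j : ℝ) : ℂ) • A j‖ ≤ 10 ^ 5 * Real.sqrt (gf N (Fintype.card J)) := by
  obtain ⟨k, d, Ψ, hd, hΨ⟩ := hI m 𝒜
  obtain ⟨ε, hε, hb⟩ := hM (Fin k) d N hN0 (by rw [hd]; exact hN) J
    (fun j i => Ψ ⟨A j, hA j⟩ i) (fun j i => ((hΨ ⟨A j, hA j⟩).1 i).trans (h1 j))
  refine ⟨ε, hε, ?_⟩
  have hc : (0 : ℝ) ≤ 10 ^ 5 * Real.sqrt (gf N (Fintype.card J)) := by positivity
  have h2 := (hΨ (∑ j, ((ε j : ℝ) : ℂ) • (⟨A j, hA j⟩ : 𝒜))).2 _ hc (fun i => by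
    have e : Ψ (∑ j, ((ε j : ℝ) : ℂ) • (⟨A j, hA j⟩ : 𝒜)) i =
        ∑ j, ((ε j : ℝ) : ℂ) • Ψ ⟨A j, hA j⟩ i := by
      rw [map_sum, Finset.sum_apply]
      refine Finset.sum_congr rfl fun j _ => ?_
      rw [map_smul, Pi.smul_apply]
    rw [e]
    exact hb i)
  have e2 : ((∑ j, ((ε j : ℝ) : ℂ) • (⟨A j, hA j⟩ : 𝒜) : 𝒜) : Matrix (Fin m) (Fin m) ℂ) =
      ∑ j, ((ε j : ℝ) : ℂ) • A j := by
    push_cast
    rfl
  rw [e2] at h2
  exact h2

/-- signs for contractions in a real matrix algebra closed under the transposition -/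
theorem real_signs (hM : S_MAIN) (hI : S_ISO) (hR : S_RCN) (hC : S_CPX) (m : ℕ)
    (ℬ : StarSubalgebra ℝ (Matrix (Fin m) (Fin m) ℝ))
    (J : Type) [Fintype J] [DecidableEq J] (A : J → Matrix (Fin m) (Fin m) ℝ) (hA : ∀ j, A j ∈ ℬ)
    (h1 : ∀ j, ‖A j‖ ≤ 1) (N : ℝ) (hN0 : 0 < N) (hN : (Module.finrank ℝ ℬ : ℝ) ≤ N) :
    ∃ ε : J → ℝ, (∀ j, ε j = 1 ∨ ε j = -1) ∧
      ‖∑ j, ε j • A j‖ ≤ 10 ^ 5 * Real.sqrt (gf N (Fintype.card J)) := by
  obtain ⟨𝒜, h𝒜, hdim⟩ := hC m ℬ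
  obtain ⟨ε, hε, hb⟩ := cpx_signs hM hI m 𝒜 J (fun j => (A j).map (fun x : ℝ => (x : ℂ)))
    (fun j => h𝒜 _ (hA j)) (fun j => by rw [hR]; exact h1 j) N hN0
    (le_trans (by exact_mod_cast hdim) hN)
  refine ⟨ε, hε, ?_⟩
  rw [← hR]
  convert hb using 2
  ext a b
  simp [Matrix.sum_apply]

/-- linear discrepancy -/
theorem real_lin (hM : S_MAIN) (hI : S_ISO) (hR : S_RCN) (hC : S_CPX) (hG : S_GF) (m : ℕ)
    (ℬ : StarSubalgebra ℝ (Matrix (Fin m) (Fin m) ℝ))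
    (J : Type) [Fintype J] [DecidableEq J] (A : J → Matrix (Fin m) (Fin m) ℝ) (hA : ∀ j, A j ∈ ℬ)
    (h1 : ∀ j, ‖A j‖ ≤ 1) (N : ℕ) (hN0 : 1 ≤ N) (hN : Module.finrank ℝ ℬ ≤ N)
    (x : J → ℝ) (hx : ∀ j, |x j| ≤ 1) :
    ∃ ε : J → ℝ, (∀ j, ε j = 1 ∨ ε j = -1) ∧
      ‖∑ j, (ε j - x j) • A j‖ ≤ 2 * (10 ^ 5 * Real.sqrt (gf N (min (Fintype.card J) N : ℕ))) := by
  have hNr : (0 : ℝ) < N := by exact_mod_cast hN0
  refine lin_disc A _ (min (Fintype.card J) N) ?_ ?_ x hx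
  · intro F hF
    obtain ⟨ε, hε, hb⟩ := real_signs hM hI hR hC m ℬ F (fun j => A j) (fun j => hA j)
      (fun j => h1 j) N hNr (by exact_mod_cast hN)
    refine ⟨fun j => if h : j ∈ F then ε ⟨j, h⟩ else 1, fun j => ?_, ?_⟩
    · by_cases h : j ∈ F
      · simp only [h, dif_pos]; exact hε _
      · simp [h]
    · have e : ∑ j ∈ F, (if h : j ∈ F then ε ⟨j, h⟩ else 1) • A j = ∑ j : F, ε j • A j := by
        rw [← Finset.sum_coe_sort F]
        refine Finset.sum_congr rfl fun j _ => ?_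
        simp
      rw [e]
      refine hb.trans ?_
      refine mul_le_mul_of_nonneg_left (Real.sqrt_le_sqrt ?_) (by positivity)
      rw [Fintype.card_coe]
      rcases Nat.eq_zero_or_pos F.card with h0 | h0
      · rw [h0]
        unfold gf
        simp only [Nat.cast_zero, zero_mul]
        positivity
      · exact (hG N hNr).1 _ _ (by exact_mod_cast h0) (by exact_mod_cast hF)
  · rcases le_total (Fintype.card J) N with h | h
    · left; simp [h]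
    · right
      rw [min_eq_right h]
      refine le_trans ?_ hN
      have hle : Submodule.span ℝ (Set.range A) ≤ Subalgebra.toSubmodule ℬ.toSubalgebra := by
        rw [Submodule.span_le]
        rintro _ ⟨j, rfl⟩
        exact hA j
      exact Submodule.finrank_mono hle

/-- the factor of the conjecture -/
noncomputable def Lam (d n : ℕ) : ℝ := max 1 (Real.sqrt (Real.log ((d : ℝ) / n)))

lemma sqrt_gf (N x : ℕ) : Real.sqrt (gf N x) = Real.sqrt x * Lam N x := by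
  unfold gf Lam
  rw [Real.sqrt_mul (Nat.cast_nonneg x)]
  congr 1
  rcases le_total 1 (Real.log ((N : ℝ) / x)) with h | h
  · rw [max_eq_right h, max_eq_right]
    rw [Real.one_le_sqrt]
    exact h
  · rw [max_eq_left h, max_eq_left, Real.sqrt_one]
    exact Real.sqrt_le_iff.2 ⟨zero_le_one, by simpa using h⟩

end Pool.Agent.U834.GSP
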