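import Pool.Agent.U834.GSP.All

/-!
# Project GSP: general index sets, linear discrepancy over the real and the complex numbers, groups
-/

set_option autoImplicit false

open scoped Matrix.Norms.L2Operator Matrix
open Finset

namespace Pool.Agent.U834.GSP

open Pool.Agent.Q98.SPN

section Reindex

variable {𝕜 : Type} [RCLike 𝕜] {ι κ : Type} [Fintype ι] [DecidableEq ι] [Fintype κ] [DecidableEq κ]

lemma norm_sub_le (e : κ ≃ ι) (A : Matrix ι ι 𝕜) : ‖A.submatrix e e‖ ≤ ‖A‖ := by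
  refine U437.SPN.norm_le_of_sum_sq _ _ (norm_nonneg _) fun v => ?_
  have h1 : ∀ i, (A.submatrix e e *ᵥ v) i = (A *ᵥ (v ∘ e.symm)) (e i) := by
    intro i
    simp only [Matrix.mulVec, dotProduct, Matrix.submatrix_apply, Function.comp_apply]
    rw [← Equiv.sum_comp e]
    simp
  have h2 : ∑ i, ‖(A.submatrix e e *ᵥ v) i‖ ^ 2 = ∑ i, ‖(A *ᵥ (v ∘ e.symm)) i‖ ^ 2 := by
    rw [← Equiv.sum_comp e (fun i => ‖(A *ᵥ (v ∘ e.symm)) i‖ ^ 2)]
    exact Finset.sum_congr rfl fun i _ => by rw [h1]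
  have h3 : ∑ j, ‖(v ∘ e.symm) j‖ ^ 2 = ∑ j, ‖v j‖ ^ 2 :=
    Equiv.sum_comp e.symm (fun j => ‖v j‖ ^ 2)
  rw [h2, ← h3]
  exact U437.SPN.sum_sq_mulVec_le A _

lemma norm_sub (e : κ ≃ ι) (A : Matrix ι ι 𝕜) : ‖A.submatrix e e‖ = ‖A‖ := by
  refine le_antisymm (norm_sub_le e A) ?_
  have h := norm_sub_le e.symm (A.submatrix e e)
  simpa using h

/-- reindexing as a homomorphism -/
def reix (e : κ ≃ ι) : Matrix ι ι 𝕜 →⋆ₐ[𝕜] Matrix κ κ 𝕜 where
  toFun A := A.submatrix e e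
  map_one' := by ext i j; simp [Matrix.one_apply]
  map_mul' A B := by rw [Matrix.submatrix_mul_equiv]
  map_zero' := rfl
  map_add' _ _ := rfl
  commutes' r := by ext i j; simp [Matrix.algebraMap_matrix_apply]
  map_star' A := rfl

end Reindex

/-- signs over the complex numbers, any index set -/
theorem cpx_signs' (ι : Type) [Fintype ι] [DecidableEq ι] (𝒜 : StarSubalgebra ℂ (Matrix ι ι ℂ))
    (J : Type) [Fintype J] [DecidableEq J] (A : J → Matrix ι ι ℂ) (hA : ∀ j, A j ∈ 𝒜)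
    (h1 : ∀ j, ‖A j‖ ≤ 1) (N : ℝ) (hN0 : 0 < N) (hN : (Module.finrank ℂ 𝒜 : ℝ) ≤ N) :
    ∃ ε : J → ℝ, (∀ j, ε j = 1 ∨ ε j = -1) ∧
      ‖∑ j, ((ε j : ℝ) : ℂ) • A j‖ ≤ 10 ^ 5 * Real.sqrt (gf N (Fintype.card J)) := by
  let e : Fin (Fintype.card ι) ≃ ι := (Fintype.equivFin ι).symm
  have hfr : Module.finrank ℂ (𝒜.map (reix e)) ≤ Module.finrank ℂ 𝒜 := by
    haveI hfd : FiniteDimensional ℂ 𝒜 := by
      have : FiniteDimensional ℂ 𝒜.toSubalgebra := inferInstance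
      exact this
    let g : 𝒜 →ₗ[ℂ] (𝒜.map (reix e)) :=
      { toFun := fun a => ⟨reix e a.1, ⟨a.1, a.2, rfl⟩⟩
        map_add' := fun a b => by ext1; simp
        map_smul' := fun r a => by ext1; simp }
    exact LinearMap.finrank_le_finrank_of_surjective (f := g) (by
      rintro ⟨_, ⟨a, ha, rfl⟩⟩
      exact ⟨⟨a, ha⟩, rfl⟩)
  obtain ⟨ε, hε, hb⟩ := cpx_signs MAIN_ok ISO_ok _ (𝒜.map (reix e)) J (fun j => reix e (A j))
    (fun j => ⟨A j, hA j, rfl⟩) (fun j => by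
      show ‖(A j).submatrix e e‖ ≤ 1
      rw [norm_sub]; exact h1 j) N hN0 (le_trans (by exact_mod_cast hfr) hN)
  refine ⟨ε, hε, ?_⟩
  have e1 : ∑ j, ((ε j : ℝ) : ℂ) • reix e (A j) = (∑ j, ((ε j : ℝ) : ℂ) • A j).submatrix e e := by
    have : reix e (∑ j, ((ε j : ℝ) : ℂ) • A j) = ∑ j, ((ε j : ℝ) : ℂ) • reix e (A j) := by
      rw [map_sum]
      exact Finset.sum_congr rfl fun j _ => by rw [map_smul]
    rw [← this]
    rfl
  rw [e1, norm_sub] at hb
  exact hb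

/-- signs over the real numbers, any index set -/
theorem real_signs' (ι : Type) [Fintype ι] [DecidableEq ι] (ℬ : StarSubalgebra ℝ (Matrix ι ι ℝ))
    (J : Type) [Fintype J] [DecidableEq J] (A : J → Matrix ι ι ℝ) (hA : ∀ j, A j ∈ ℬ)
    (h1 : ∀ j, ‖A j‖ ≤ 1) (N : ℝ) (hN0 : 0 < N) (hN : (Module.finrank ℝ ℬ : ℝ) ≤ N) :
    ∃ ε : J → ℝ, (∀ j, ε j = 1 ∨ ε j = -1) ∧
      ‖∑ j, ε j • A j‖ ≤ 10 ^ 5 * Real.sqrt (gf N (Fintype.card J)) := by
  let e : Fin (Fintype.card ι) ≃ ι := (Fintype.equivFin ι).symm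
  have hfr : Module.finrank ℝ (ℬ.map (reix e)) ≤ Module.finrank ℝ ℬ := by
    haveI hfd : FiniteDimensional ℝ ℬ := by
      have : FiniteDimensional ℝ ℬ.toSubalgebra := inferInstance
      exact this
    let g : ℬ →ₗ[ℝ] (ℬ.map (reix e)) :=
      { toFun := fun a => ⟨reix e a.1, ⟨a.1, a.2, rfl⟩⟩
        map_add' := fun a b => by ext1; simp
        map_smul' := fun r a => by ext1; simp }
    exact LinearMap.finrank_le_finrank_of_surjective (f := g) (by
      rintro ⟨_, ⟨a, ha, rfl⟩⟩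
      exact ⟨⟨a, ha⟩, rfl⟩)
  obtain ⟨ε, hε, hb⟩ := real_signs MAIN_ok ISO_ok RCN_ok CPX_ok _ (ℬ.map (reix e)) J
    (fun j => reix e (A j))
    (fun j => ⟨A j, hA j, rfl⟩) (fun j => by
      show ‖(A j).submatrix e e‖ ≤ 1
      rw [norm_sub]; exact h1 j) N hN0 (le_trans (by exact_mod_cast hfr) hN)
  refine ⟨ε, hε, ?_⟩
  have e1 : ∑ j, ε j • reix e (A j) = (∑ j, ε j • A j).submatrix e e := by
    have : reix e (∑ j, ε j • A j) = ∑ j, ε j • reix e (A j) := by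
      rw [map_sum]
      exact Finset.sum_congr rfl fun j _ => by rw [map_smul]
    rw [← this]
    rfl
  rw [e1, norm_sub] at hb
  exact hb

lemma gf_zero (N : ℝ) : gf N 0 = 0 := by simp [gf]

/-- from signs for subfamilies to linear discrepancy -/
lemma lin_of_signs {V : Type} [NormedAddCommGroup V] [NormedSpace ℝ V] {J : Type} [Fintype J]
    [DecidableEq J] (A : J → V) (N M : ℕ) (hN : 1 ≤ N)
    (h : ∀ F : Finset J, ∃ ε : F → ℝ, (∀ j, ε j = 1 ∨ ε j = -1) ∧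
      ‖∑ j : F, ε j • A j‖ ≤ 10 ^ 5 * Real.sqrt (gf N F.card))
    (hM : Fintype.card J ≤ M ∨ Module.finrank ℝ (Submodule.span ℝ (Set.range A)) ≤ M)
    (x : J → ℝ) (hx : ∀ j, |x j| ≤ 1) :
    ∃ ε : J → ℝ, (∀ j, ε j = 1 ∨ ε j = -1) ∧
      ‖∑ j, (ε j - x j) • A j‖ ≤ 2 * (10 ^ 5 * Real.sqrt (gf N M)) := by
  have hNr : (0 : ℝ) < N := by exact_mod_cast hN
  refine lin_disc A _ M ?_ hM x hx
  intro F hF
  obtain ⟨ε, hε, hb⟩ := h F
  refine ⟨fun j => if h : j ∈ F then ε ⟨j, h⟩ else 1, fun j => ?_, ?_⟩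
  · by_cases h : j ∈ F
    · simp only [h, dif_pos]; exact hε _
    · simp [h]
  · have e : ∑ j ∈ F, (if h : j ∈ F then ε ⟨j, h⟩ else 1) • A j = ∑ j : F, ε j • A j := by
      rw [← Finset.sum_coe_sort F]
      refine Finset.sum_congr rfl fun j _ => ?_
      simp
    rw [e]
    refine hb.trans ?_
    refine mul_le_mul_of_nonneg_left (Real.sqrt_le_sqrt ?_) (by positivity)
    rcases Nat.eq_zero_or_pos F.card with h0 | h0
    · rw [h0]
      simp only [Nat.cast_zero, gf_zero]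
      unfold gf
      positivity
    · exact (U473.GSP.GF.t_GF N hNr).1 _ _ (by exact_mod_cast h0) (by exact_mod_cast hF)

/-- linear discrepancy over the real numbers -/
theorem real_lin' (ι : Type) [Fintype ι] [DecidableEq ι] (ℬ : StarSubalgebra ℝ (Matrix ι ι ℝ))
    (J : Type) [Fintype J] [DecidableEq J] (A : J → Matrix ι ι ℝ) (hA : ∀ j, A j ∈ ℬ)
    (h1 : ∀ j, ‖A j‖ ≤ 1) (N : ℕ) (hN0 : 1 ≤ N) (hN : Module.finrank ℝ ℬ ≤ N)
    (x : J → ℝ) (hx : ∀ j, |x j| ≤ 1) :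
    ∃ ε : J → ℝ, (∀ j, ε j = 1 ∨ ε j = -1) ∧
      ‖∑ j, (ε j - x j) • A j‖ ≤ 2 * (10 ^ 5 * Real.sqrt (gf N (min (Fintype.card J) N : ℕ))) := by
  have hNr : (0 : ℝ) < N := by exact_mod_cast hN0
  refine lin_of_signs A N _ hN0 (fun F => ?_) ?_ x hx
  · obtain ⟨ε, hε, hb⟩ := real_signs' ι ℬ F (fun j => A j) (fun j => hA j)
      (fun j => h1 j) N hNr (by exact_mod_cast hN)
    rw [Fintype.card_coe] at hb
    exact ⟨ε, hε, hb⟩
  · rcases le_total (Fintype.card J) N with h | h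
    · left; simp [h]
    · right
      rw [min_eq_right h]
      refine le_trans ?_ hN
      have hle : Submodule.span ℝ (Set.range A) ≤ Subalgebra.toSubmodule ℬ.toSubalgebra := by
        rw [Submodule.span_le]
        rintro _ ⟨j, rfl⟩
        exact hA j
      exact Submodule.finrank_mono hle

/-- linear discrepancy over the complex numbers -/
theorem cpx_lin' (ι : Type) [Fintype ι] [DecidableEq ι] (𝒜 : StarSubalgebra ℂ (Matrix ι ι ℂ))
    (J : Type) [Fintype J] [DecidableEq J] (A : J → Matrix ι ι ℂ) (hA : ∀ j, A j ∈ 𝒜)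
    (h1 : ∀ j, ‖A j‖ ≤ 1) (N : ℕ) (hN0 : 1 ≤ N) (hN : Module.finrank ℂ 𝒜 ≤ N)
    (x : J → ℝ) (hx : ∀ j, |x j| ≤ 1) :
    ∃ ε : J → ℝ, (∀ j, ε j = 1 ∨ ε j = -1) ∧
      ‖∑ j, (ε j - x j) • A j‖ ≤ 3 * (10 ^ 5 * Real.sqrt (gf N (min (Fintype.card J) N : ℕ))) := by
  have hNr : (0 : ℝ) < N := by exact_mod_cast hN0
  have hF : ∀ F : Finset J, ∃ ε : F → ℝ, (∀ j, ε j = 1 ∨ ε j = -1) ∧
      ‖∑ j : F, ε j • A j‖ ≤ 10 ^ 5 * Real.sqrt (gf N F.card) := by
    intro F
    obtain ⟨ε, hε, hb⟩ := cpx_signs' ι 𝒜 F (fun j => A j) (fun j => hA j)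
      (fun j => h1 j) N hNr (by exact_mod_cast hN)
    rw [Fintype.card_coe] at hb
    refine ⟨ε, hε, ?_⟩
    have e1 : ∑ j : F, ε j • A j = ∑ j : F, ((ε j : ℝ) : ℂ) • A j :=
      Finset.sum_congr rfl fun j _ => by
        ext a b
        simp [Matrix.smul_apply]
    rw [e1]
    exact hb
  have hMM : Fintype.card J ≤ min (Fintype.card J) (2 * N) ∨
      Module.finrank ℝ (Submodule.span ℝ (Set.range A)) ≤ min (Fintype.card J) (2 * N) := by
    rcases le_total (Fintype.card J) (2 * N) with h | h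
    · left; simp [h]
    · right
      rw [min_eq_right h]
      have hle : Submodule.span ℝ (Set.range A) ≤
          (Subalgebra.toSubmodule 𝒜.toSubalgebra).restrictScalars ℝ := by
        rw [Submodule.span_le]
        rintro _ ⟨j, rfl⟩
        exact hA j
      have h3 := Submodule.finrank_mono hle
      have h4 : Module.finrank ℝ ((Subalgebra.toSubmodule 𝒜.toSubalgebra).restrictScalars ℝ) =
          2 * Module.finrank ℂ 𝒜 := by
        have : Module.finrank ℝ 𝒜 = 2 * Module.finrank ℂ 𝒜 := finrank_real_of_complex 𝒜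
        exact this
      omega
  obtain ⟨ε, hε, hb⟩ := lin_of_signs A N (min (Fintype.card J) (2 * N)) hN0 hF hMM x hx
  refine ⟨ε, hε, hb.trans ?_⟩
  have hgf : gf N ((min (Fintype.card J) (2 * N) : ℕ) : ℝ) ≤ 2 * gf N ((min (Fintype.card J) N : ℕ) : ℝ) := by
    rcases le_total (Fintype.card J) N with h | h
    · rw [min_eq_left h, min_eq_left (by omega)]
      have : 0 ≤ gf N (Fintype.card J) := by unfold gf; positivity
      linarith
    · rw [min_eq_right h]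
      have h2 : gf N ((min (Fintype.card J) (2 * N) : ℕ) : ℝ) ≤ gf N ((2 * N : ℕ) : ℝ) := by
        refine (U473.GSP.GF.t_GF N hNr).1 _ _ ?_ ?_
        · have : 0 < min (Fintype.card J) (2 * N) := by
            rw [lt_min_iff]; omega
          exact_mod_cast this
        · exact_mod_cast min_le_right _ _
      refine h2.trans (le_of_eq ?_)
      unfold gf
      rw [max_eq_left, max_eq_left]
      · push_cast; ring
      · rw [div_self hNr.ne', Real.log_one]; norm_num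
      · have : Real.log ((N : ℝ) / ((2 * N : ℕ) : ℝ)) ≤ 0 := by
          refine Real.log_nonpos (by positivity) ?_
          rw [div_le_one (by push_cast; positivity)]
          push_cast; linarith
        linarith
  have h2 : Real.sqrt (gf N ((min (Fintype.card J) (2 * N) : ℕ) : ℝ)) ≤
      1.5 * Real.sqrt (gf N ((min (Fintype.card J) N : ℕ) : ℝ)) := by
    have h0 : 0 ≤ gf N ((min (Fintype.card J) N : ℕ) : ℝ) := by unfold gf; positivity
    refine Real.sqrt_le_iff.2 ⟨by positivity, ?_⟩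
    rw [mul_pow, Real.sq_sqrt h0]
    nlinarith
  nlinarith [Real.sqrt_nonneg (gf N ((min (Fintype.card J) N : ℕ) : ℝ))]

end Pool.Agent.U834.GSP
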