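import Pool.Agent.Q98.SPN.Stm

/-!
# Project GSP, second part: matrix algebras closed under the adjoint

Statements (each is a `Prop` with its proof in the docstring). Together with `S_MAIN` of
`Pool.Agent.Q98.SPN.Stm` they give the matrix Spencer bound `C √n max(1, √log(N/n))` for `n` contractions in any
algebra of `d × d` matrices which is closed under the adjoint and has dimension `N`.
-/

set_option autoImplicit false

open scoped Matrix.Norms.L2Operator Matrix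
open Finset

namespace Pool.Agent.U834.GSP

/-- **SSR**: a unital algebra of complex matrices closed under the adjoint is a semisimple ring. Proof: it is finite
dimensional, hence Artinian; its Jacobson radical `J` is nilpotent (`IsArtinianRing.isNilpotent_jacobson_bot`); for
`a ∈ J` the element `a^* a` is in `J`, hence nilpotent, and Hermitian, hence `0` (for a Hermitian matrix `h ^ (2 * n) =
0` implies `h ^ n = 0`, as `hᴴ h = 0` implies `h = 0`: `Matrix.conjTranspose_mul_self_eq_zero`), hence `a = 0`. So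
`J = 0` and the ring is semisimple (`IsArtinianRing.isSemisimpleRing_iff_jacobson` or similar). -/
def S_SSR : Prop := ∀ (m : ℕ) (𝒜 : StarSubalgebra ℂ (Matrix (Fin m) (Fin m) ℂ)), IsSemisimpleRing 𝒜

/-- **WEA** (uses SSR): the Wedderburn-Artin isomorphism `IsSemisimpleRing.exists_algEquiv_pi_matrix_of_isAlgClosed`
(`𝒜` is a finite dimensional algebra over `ℂ`), and dimensions (`finrank` of a product of matrix algebras). -/
def S_WEA : Prop := ∀ (m : ℕ) (𝒜 : StarSubalgebra ℂ (Matrix (Fin m) (Fin m) ℂ)),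
  ∃ (k : ℕ) (d : Fin k → ℕ) (_ : 𝒜 ≃ₐ[ℂ] ((i : Fin k) → Matrix (Fin (d i)) (Fin (d i)) ℂ)),
    ∑ i, d i ^ 2 = Module.finrank ℂ 𝒜

/-- **INT**: the blocks occur in `ℂ^m`. Proof: if `d i = 0` take `T` empty (nothing to prove). Otherwise fix
`o : Fin (d i)`, let `E l j` be the element `Φ.symm (Pi.single i (Matrix.single l j 1))` of `𝒜`. `E o o ≠ 0` is an
idempotent, so there is `v` with `w = E o o *ᵥ v ≠ 0` and `E o o *ᵥ w = w`. Let the column `j` of `T` be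
`E j o *ᵥ w`. Then `a * E j o = ∑_l (Φ a i) l j • E l o` (apply `Φ`), which is `a * T = T * Φ a i`. If `T *ᵥ c = 0`
apply `E o j`: `E o j * E l o = if j = l then E o o else 0`, so `c j • w = 0`. -/
def S_INT : Prop := ∀ (m : ℕ) (𝒜 : StarSubalgebra ℂ (Matrix (Fin m) (Fin m) ℂ)) (k : ℕ) (d : Fin k → ℕ)
  (Φ : 𝒜 ≃ₐ[ℂ] ((i : Fin k) → Matrix (Fin (d i)) (Fin (d i)) ℂ)) (i : Fin k),
  ∃ T : Matrix (Fin m) (Fin (d i)) ℂ, (∀ v : Fin (d i) → ℂ, T *ᵥ v = 0 → v = 0) ∧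
    ∀ a : 𝒜, (a : Matrix (Fin m) (Fin m) ℂ) * T = T * Φ a i

/-- **UNT**: unitarisation. Proof: `h = Tᴴ * T` is positive definite, so `h = Sᴴ * S` with an invertible `S`
(`Matrix.posDef_iff_eq_conjTranspose_mul_self` or the square root). `(ρ a)ᴴ * h = (T * ρ a)ᴴ * T = (a * T)ᴴ * T =
Tᴴ * (star a * T) = Tᴴ * T * ρ (star a) = h * ρ (star a)`, so `S * ρ (star a) * S⁻¹ = S * h⁻¹ * (ρ a)ᴴ * h * S⁻¹ =
(S⁻¹)ᴴ * (ρ a)ᴴ * Sᴴ = (S * ρ a * S⁻¹)ᴴ`. -/
def S_UNT : Prop := ∀ (m r : ℕ) (𝒜 : StarSubalgebra ℂ (Matrix (Fin m) (Fin m) ℂ))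
  (ρ : 𝒜 →ₐ[ℂ] Matrix (Fin r) (Fin r) ℂ) (T : Matrix (Fin m) (Fin r) ℂ),
  (∀ v : Fin r → ℂ, T *ᵥ v = 0 → v = 0) → (∀ a : 𝒜, (a : Matrix (Fin m) (Fin m) ℂ) * T = T * ρ a) →
  ∃ S : (Matrix (Fin r) (Fin r) ℂ)ˣ, ∀ a : 𝒜,
    (S : Matrix (Fin r) (Fin r) ℂ) * ρ (star a) * ((S⁻¹ : (Matrix (Fin r) (Fin r) ℂ)ˣ) : Matrix (Fin r) (Fin r) ℂ) =
      ((S : Matrix (Fin r) (Fin r) ℂ) * ρ a * ((S⁻¹ : (Matrix (Fin r) (Fin r) ℂ)ˣ) : Matrix (Fin r) (Fin r) ℂ))ᴴ

/-- **ISO** (uses WEA, INT, UNT). Proof: `Φ` from WEA, for each `i` `T` from INT and `S` from UNT with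
`ρ a = Φ a i`; `Ψ a i = S * Φ a i * S⁻¹` is a star algebra homomorphism and injective (even bijective). An injective
star homomorphism of C*-algebras is isometric: `NonUnitalStarAlgHom.norm_map` (`Mathlib.Analysis.CStarAlgebra.Hom`)
for the C*-algebra `𝒜` (`StarSubalgebra.cstarAlgebra`, closed since finite dimensional:
`Submodule.closed_of_finiteDimensional`) and the product (`Pi` instances, the norm is the supremum of the norms of the
blocks: `pi_norm_le_iff_of_nonneg`, `norm_le_pi_norm`). The matrices carry the scoped C*-algebra instances of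
`Matrix.Norms.L2Operator`. -/
def S_ISO : Prop := ∀ (m : ℕ) (𝒜 : StarSubalgebra ℂ (Matrix (Fin m) (Fin m) ℂ)),
  ∃ (k : ℕ) (d : Fin k → ℕ) (Ψ : 𝒜 →ₐ[ℂ] ((i : Fin k) → Matrix (Fin (d i)) (Fin (d i)) ℂ)),
    ∑ i, d i ^ 2 = Module.finrank ℂ 𝒜 ∧
    ∀ a : 𝒜, (∀ i, ‖Ψ a i‖ ≤ ‖(a : Matrix (Fin m) (Fin m) ℂ)‖) ∧
      ∀ c : ℝ, 0 ≤ c → (∀ i, ‖Ψ a i‖ ≤ c) → ‖(a : Matrix (Fin m) (Fin m) ℂ)‖ ≤ c

/-- **RCN**: the norm of a real matrix does not change over the complex numbers. Proof: for `u + i v` with real `u`,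
`v`: `‖A (u + i v)‖² = ‖A u‖² + ‖A v‖² ≤ ‖A‖² (‖u‖² + ‖v‖²)`; conversely restrict to real vectors
(`Matrix.l2_opNorm_def`, `Matrix.l2_opNorm_mulVec`, `ContinuousLinearMap.opNorm_le_bound`). -/
def S_RCN : Prop := ∀ (ι : Type) [Fintype ι] [DecidableEq ι] (A : Matrix ι ι ℝ),
  ‖A.map (fun x : ℝ => (x : ℂ))‖ = ‖A‖

/-- **CPX**: complexification. Proof: `𝒜` = the complex span of the matrices `b.map ofReal`, `b ∈ ℬ`; it contains `1`,
is closed under products and adjoints; it is spanned by the images of a basis of `ℬ`. -/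
def S_CPX : Prop := ∀ (m : ℕ) (ℬ : StarSubalgebra ℝ (Matrix (Fin m) (Fin m) ℝ)),
  ∃ 𝒜 : StarSubalgebra ℂ (Matrix (Fin m) (Fin m) ℂ),
    (∀ b : Matrix (Fin m) (Fin m) ℝ, b ∈ ℬ → b.map (fun x : ℝ => (x : ℂ)) ∈ 𝒜) ∧
    Module.finrank ℂ 𝒜 ≤ Module.finrank ℝ ℬ

end Pool.Agent.U834.GSP
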